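import Mathlib

/-!
# MP_250e3d_co: a counterexample on `Z/20`
-/

namespace Pool.Agent.Results.MP_250e3d_co.OrderTwenty

open Pointwise

/-- The circulant graph `Cay(Z_n, T)` (for `T = -T`, `0 ∉ T`). -/
def cay {n : ℕ} (T : Set (ZMod n)) : SimpleGraph (ZMod n) where
  Adj x y := x ≠ y ∧ (y - x ∈ T ∨ x - y ∈ T)
  symm := ⟨fun _ _ h => ⟨h.1.symm, h.2.symm⟩⟩
  loopless := ⟨fun _ h => h.1 rfl⟩

/-- `S* = (S \ {2h}) + 2h`. -/
def star (h : ℕ) (S : Set (ZMod (4 * h))) : Set (ZMod (4 * h)) :=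
  (fun x => x + 2 * (h : ZMod (4 * h))) '' (S \ {2 * (h : ZMod (4 * h))})

/-- `K_o = K \ 2K`. -/
def odd {n : ℕ} (K : AddSubgroup (ZMod n)) : Set (ZMod n) :=
  (K : Set (ZMod n)) \ ((fun k => k + k) '' (K : Set (ZMod n)))

/-- connected, non-bipartite and twin-free -/
def Nontrivial {V : Type} (G : SimpleGraph V) : Prop :=
  G.Connected ∧ ¬ G.Colorable 2 ∧ ∀ x y, G.neighborSet x = G.neighborSet y → x = y

/-- the inclusion `(S \ K_o) + ⟨h⟩ ⊆ S ∪ K_o` -/
def Inclusion (h : ℕ) (S : Set (ZMod (4 * h))) (K : AddSubgroup (ZMod (4 * h))) : Prop :=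
  (S \ odd K) + (AddSubgroup.zmultiples (h : ZMod (4 * h)) : Set (ZMod (4 * h))) ⊆ S ∪ odd K

/-- the odd residues and `±2` -/
def S : Set (ZMod (4 * 5)) := {x | x.val % 2 = 1 ∨ x = 2 ∨ x = 18}

/-- the odd residues and `±8` -/
def T : Set (ZMod (4 * 5)) := {x | x.val % 2 = 1 ∨ x = 8 ∨ x = 12}

instance : DecidablePred (· ∈ S) := fun x => by unfold S; exact inferInstanceAs (Decidable (_ ∨ _))
instance : DecidablePred (· ∈ T) := fun x => by unfold T; exact inferInstanceAs (Decidable (_ ∨ _))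
instance : DecidableRel (cay S).Adj := fun _ _ => inferInstanceAs (Decidable (_ ∧ (_ ∨ _)))
instance : DecidableRel (cay T).Adj := fun _ _ => inferInstanceAs (Decidable (_ ∧ (_ ∨ _)))

lemma S_symm : ∀ x ∈ S, -x ∈ S := by decide
lemma S_zero : (0 : ZMod (4 * 5)) ∉ S := by decide

lemma star_S : star 5 S = T := by
  ext x
  constructor
  · rintro ⟨y, ⟨hy, hy'⟩, rfl⟩
    revert hy hy'
    revert y
    decide
  · intro hx
    refine ⟨x + 10, ?_, ?_⟩
    · revert hx; revert x; decide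
    · revert x; decide

/-- rotation of the pentagon of the residues `2 mod 4` -/
def σ : cay T ≃g cay T where
  toFun x := if x.val % 4 = 2 then x + 8 else x
  invFun x := if x.val % 4 = 2 then x - 8 else x
  left_inv := by intro x; revert x; decide
  right_inv := by intro x; revert x; decide
  map_rel_iff' := by decide

lemma nontrivial_S : Nontrivial (cay S) := by
  refine ⟨?_, ?_, ?_⟩
  · have h : ∀ v : ZMod (4 * 5), v = 0 ∨ (cay S).Adj 0 v ∨ (∃ a, (cay S).Adj 0 a ∧ (cay S).Adj a v) := by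
      decide
    have h0 : ∀ v, (cay S).Reachable 0 v := by
      intro v
      rcases h v with rfl | h | ⟨a, h1, h2⟩
      · exact SimpleGraph.Reachable.refl _
      · exact h.reachable
      · exact h1.reachable.trans h2.reachable
    exact ⟨fun v w => (h0 v).symm.trans (h0 w)⟩
  · rintro ⟨c⟩
    have h1 : c 0 ≠ c 1 := c.valid (by decide)
    have h2 : c 1 ≠ c 3 := c.valid (by decide)
    have h3 : c 0 ≠ c 3 := c.valid (by decide)
    revert h1 h2 h3
    generalize c 0 = a
    generalize c 1 = b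
    generalize c 3 = d
    revert a b d
    decide
  · intro x y h
    have h1 : ∀ z, (cay S).Adj x z ↔ (cay S).Adj y z := fun z => by
      have := congrArg (z ∈ ·) h
      simpa using this
    revert h1; clear h
    revert x y
    decide

lemma nontrivial_T : Nontrivial (cay T) := by
  refine ⟨?_, ?_, ?_⟩
  · have h : ∀ v : ZMod (4 * 5), v = 0 ∨ (cay T).Adj 0 v ∨ (∃ a, (cay T).Adj 0 a ∧ (cay T).Adj a v) := by
      decide
    have h0 : ∀ v, (cay T).Reachable 0 v := by
      intro v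
      rcases h v with rfl | h | ⟨a, h1, h2⟩
      · exact SimpleGraph.Reachable.refl _
      · exact h.reachable
      · exact h1.reachable.trans h2.reachable
    exact ⟨fun v w => (h0 v).symm.trans (h0 w)⟩
  · rintro ⟨c⟩
    have h1 : c 0 ≠ c 1 := c.valid (by decide)
    have h2 : c 1 ≠ c 9 := c.valid (by decide)
    have h3 : c 0 ≠ c 9 := c.valid (by decide)
    revert h1 h2 h3
    generalize c 0 = a
    generalize c 1 = b
    generalize c 9 = d
    revert a b d
    decide
  · intro x y h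
    have h1 : ∀ z, (cay T).Adj x z ↔ (cay T).Adj y z := fun z => by
      have := congrArg (z ∈ ·) h
      simpa using this
    revert h1; clear h
    revert x y
    decide

lemma no_K (K : AddSubgroup (ZMod (4 * 5))) (q : ℕ) (hq : Odd q) (hK : Nat.card K = 2 * q) :
    ¬ Inclusion 5 S K := by
  intro h
  have h5 : (5 : ZMod (4 * 5)) ∉ K := by
    intro h5
    have h1 : addOrderOf (⟨5, h5⟩ : K) ∣ Nat.card K := addOrderOf_dvd_natCard _
    have h2 : addOrderOf (5 : ZMod (4 * 5)) = 4 := by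
      have h3 : addOrderOf (5 : ZMod (4 * 5)) = 2 ^ (1 + 1) := by
        apply addOrderOf_eq_prime_pow <;> decide
      rw [h3]; norm_num
    rw [AddSubgroup.addOrderOf_mk, h2, hK] at h1
    obtain ⟨r, rfl⟩ := hq
    omega
  have h6 : (0 : ZMod (4 * 5)) ∈ S ∪ odd K := by
    apply h
    refine ⟨5, ⟨by decide, fun h7 => h5 h7.1⟩, 15, ?_, by decide⟩
    exact ⟨3, by decide⟩
  rcases h6 with h6 | h6
  · exact S_zero h6
  · exact h6.2 ⟨0, K.zero_mem, by simp⟩

/-- **The answer to the question is negative**, already for `h = 5`. -/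
theorem result : ∃ (h : ℕ) (S : Set (ZMod (4 * h))), 0 < h ∧ (∀ s ∈ S, -s ∈ S) ∧ 0 ∉ S ∧
    Nontrivial (cay S) ∧ Nontrivial (cay (star h S)) ∧
    (∃ σ : cay (star h S) ≃g cay (star h S), σ 0 = 0 ∧
      σ (2 * (h : ZMod (4 * h))) ≠ 2 * (h : ZMod (4 * h))) ∧
    ∀ K : AddSubgroup (ZMod (4 * h)), (∃ q : ℕ, Odd q ∧ Nat.card K = 2 * q) → ¬ Inclusion h S K := by
  refine ⟨5, S, by norm_num, S_symm, S_zero, nontrivial_S, ?_, ?_, ?_⟩
  · rw [star_S]; exact nontrivial_T
  · rw [star_S]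
    exact ⟨σ, by decide, by decide⟩
  · rintro K ⟨q, hq, hK⟩
    exact no_K K q hq hK

end Pool.Agent.Results.MP_250e3d_co.OrderTwenty
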